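import Mathlib

open Set Filter Topology Metric

namespace Pool.Agent.Results.MP_19acf5_gt.IndecomposableRemainderCIK

universe u

/-- A (sub)continuum: a nonempty compact connected set. -/
def IsContinuum {Z : Type u} [TopologicalSpace Z] (s : Set Z) : Prop :=
  IsCompact s ∧ IsConnected s

/-- An indecomposable continuum: not the union of two proper subcontinua. -/
def IsIndecomposable {Z : Type u} [TopologicalSpace Z] (s : Set Z) : Prop :=
  IsContinuum s ∧ ∀ A B : Set Z, IsContinuum A → IsContinuum B → A ∪ B = s → A = s ∨ B = s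

/-- The Stone-Cech remainder `β(Y) - Y`. -/
def remainder (Y : Type u) [TopologicalSpace Y] : Set (StoneCech Y) :=
  (range (stoneCechUnit : Y → StoneCech Y))ᶜ

/-- `X` is connected im kleinen at `p`. -/
def ConnectedImKleinenAt {X : Type u} [TopologicalSpace X] (p : X) : Prop :=
  ∀ U : Set X, IsOpen U → p ∈ U → ∃ C : Set X, C ⊆ U ∧ IsConnected C ∧ p ∈ interior C

section general

lemma exists_relclopen {X : Type u} [TopologicalSpace X] [T2Space X] {K : Set X}
    (hK : IsCompact K) {x : X} (hx : x ∈ K) {O : Set X} (hO : IsOpen O)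
    (hsub : connectedComponentIn K x ⊆ O) :
    ∃ D ⊆ K, x ∈ D ∧ IsClosed D ∧ IsClosed (K \ D) ∧ D ⊆ O := by
  have : CompactSpace K := isCompact_iff_compactSpace.1 hK
  let x' : K := ⟨x, hx⟩
  rw [connectedComponentIn_eq_image hx] at hsub
  have hC : connectedComponent x' ⊆ (Subtype.val ⁻¹' O : Set K) := by
    intro y hy
    exact hsub ⟨y, hy, rfl⟩
  rw [connectedComponent_eq_iInter_isClopen] at hC
  have hopen : IsOpen (Subtype.val ⁻¹' O : Set K) := hO.preimage continuous_subtype_val
  have hne : Nonempty {s : Set K // IsClopen s ∧ x' ∈ s} :=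
    ⟨⟨univ, isClopen_univ, mem_univ _⟩⟩
  obtain ⟨⟨s, hs, hxs⟩, hsO⟩ := exists_subset_nhds_of_isCompact' (ι := {s : Set K // IsClopen s ∧ x' ∈ s})
    (V := fun s => s.1) (by
      intro a b
      refine ⟨⟨a.1 ∩ b.1, a.2.1.inter b.2.1, a.2.2, b.2.2⟩, ?_, ?_⟩
      · exact inter_subset_left
      · exact inter_subset_right)
    (fun s => s.2.1.isClosed.isCompact) (fun s => s.2.1.isClosed)
    (U := (Subtype.val ⁻¹' O : Set K)) (fun y hy => hopen.mem_nhds (hC hy))
  refine ⟨Subtype.val '' s, ?_, ⟨x', hxs, rfl⟩, ?_, ?_, ?_⟩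
  · rintro _ ⟨y, _, rfl⟩
    exact y.2
  · exact (hs.isClosed.isCompact.image continuous_subtype_val).isClosed
  · have : K \ (Subtype.val '' s) = Subtype.val '' sᶜ := by
      ext y
      constructor
      · rintro ⟨hy, hy2⟩
        exact ⟨⟨y, hy⟩, fun h => hy2 ⟨_, h, rfl⟩, rfl⟩
      · rintro ⟨y, hy, rfl⟩
        refine ⟨y.2, ?_⟩
        rintro ⟨z, hz, hzy⟩
        exact hy (Subtype.ext hzy ▸ hz)
    rw [this]
    exact (hs.compl.isClosed.isCompact.image continuous_subtype_val).isClosed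
  · rintro _ ⟨y, hy, rfl⟩
    exact hsO hy

/-- boundary bumping for balls -/
lemma boundary_bumping {X : Type u} [MetricSpace X] [CompactSpace X] [ConnectedSpace X]
    {p : X} {r : ℝ} (hr : ∃ y, r < dist y p) {x : X} (hx : x ∈ closedBall p r) :
    ∃ u ∈ connectedComponentIn (closedBall p r) x, dist u p = r := by
  by_contra hcon
  push Not at hcon
  have hsub : connectedComponentIn (closedBall p r) x ⊆ ball p r := by
    intro y hy
    have h1 : dist y p ≤ r := mem_closedBall.1 (connectedComponentIn_subset (closedBall p r) x hy)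
    exact lt_of_le_of_ne h1 (hcon y hy)
  obtain ⟨D, hDK, hxD, hD1, hD2, hDO⟩ :=
    exists_relclopen isClosed_closedBall.isCompact hx isOpen_ball hsub
  have hopen : IsOpen D := by
    have : D = ball p r ∩ (closedBall p r \ D)ᶜ := by
      ext y
      constructor
      · intro hy
        exact ⟨hDO hy, fun h => h.2 hy⟩
      · rintro ⟨hy1, hy2⟩
        by_contra hyD
        exact hy2 ⟨ball_subset_closedBall hy1, hyD⟩
    rw [this]
    exact isOpen_ball.inter hD2.isOpen_compl
  have huniv : D = univ := IsClopen.eq_univ ⟨hD1, hopen⟩ ⟨x, hxD⟩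
  obtain ⟨y, hy⟩ := hr
  have : y ∈ closedBall p r := hDK (huniv ▸ mem_univ y)
  exact absurd (mem_closedBall.1 this) (not_le.2 hy)

lemma union_connected {Z : Type u} [TopologicalSpace Z] {R A F1 F2 : Set Z}
    (hR : IsConnected R) (hA : IsConnected A) (hAc : IsClosed A) (h1 : IsClosed F1)
    (h2 : IsClosed F2) (hdisj : Disjoint F1 F2) (hu : A ∪ (F1 ∪ F2) = R) :
    IsConnected (A ∪ F1) := by
  refine ⟨hA.nonempty.mono subset_union_left, ?_⟩
  rw [isPreconnected_iff_subset_of_fully_disjoint_closed (hAc.union h1)]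
  intro u v hu' hv' hsub huv
  have key : ∀ P Q : Set Z, IsClosed P → IsClosed Q → A ∪ F1 ⊆ P ∪ Q → Disjoint P Q → A ⊆ P →
      A ∪ F1 ⊆ P := by
    intro P Q hP hQ hs hPQ hAP
    have hsub2 : R ⊆ (Q ∩ F1) ∪ (P ∪ F2) := by
      rw [← hu]
      rintro z (hz | hz | hz)
      · exact Or.inr (Or.inl (hAP hz))
      · rcases hs (Or.inr hz) with h | h
        · exact Or.inr (Or.inl h)
        · exact Or.inl ⟨h, hz⟩
      · exact Or.inr (Or.inr hz)
    have hdis2 : Disjoint (Q ∩ F1) (P ∪ F2) := by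
      rw [Set.disjoint_left]
      rintro z ⟨hzQ, hz1⟩ (hz | hz)
      · exact Set.disjoint_left.1 hPQ hz hzQ
      · exact Set.disjoint_left.1 hdisj hz1 hz
    have hRcl : IsClosed R := by
      rw [← hu]; exact hAc.union (h1.union h2)
    rcases (isPreconnected_iff_subset_of_fully_disjoint_closed hRcl).1 hR.isPreconnected _ _
      (hQ.inter h1) (hP.union h2) hsub2 hdis2 with h | h
    · obtain ⟨a, ha⟩ := hA.nonempty
      have haR : a ∈ R := by rw [← hu]; exact Or.inl ha
      exact absurd (h haR).1 (Set.disjoint_left.1 hPQ (hAP ha))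
    · rintro z (hz | hz)
      · exact hAP hz
      · have hzR : z ∈ R := by rw [← hu]; exact Or.inr (Or.inl hz)
        rcases h hzR with h' | h'
        · exact h'
        · exact absurd h' (Set.disjoint_left.1 hdisj hz)
  rcases (isPreconnected_iff_subset_of_fully_disjoint_closed hAc).1 hA.isPreconnected u v hu' hv'
    (subset_union_left.trans hsub) huv with h | h
  · exact Or.inl (key u v hu' hv' hsub huv h)
  · exact Or.inr (key v u hv' hu' (by rwa [union_comm v u]) huv.symm h)

/-- A proper subcontinuum with nonempty relative interior gives a decomposition. -/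
lemma decomposable {Z : Type u} [TopologicalSpace Z] [T2Space Z] {R A O : Set Z}
    (hR : IsContinuum R) (hA : IsContinuum A) (hAR : A ⊆ R) (hne : A ≠ R) (hO : IsOpen O)
    (hOR : (O ∩ R).Nonempty) (hOA : O ∩ R ⊆ A) : ¬ IsIndecomposable R := by
  intro hind
  have hRc : IsClosed R := hR.1.isClosed
  have hAc : IsClosed A := hA.1.isClosed
  set G := R \ A with hG
  have hGne : G.Nonempty := by
    by_contra h
    rw [not_nonempty_iff_eq_empty, sdiff_eq_empty] at h
    exact hne (hAR.antisymm h)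
  have hclR : closure G ⊆ R := closure_minimal sdiff_subset hRc
  have hun : A ∪ closure G = R := by
    refine (union_subset hAR hclR).antisymm fun z hz => ?_
    by_cases h : z ∈ A
    · exact Or.inl h
    · exact Or.inr (subset_closure ⟨hz, h⟩)
  by_cases hconn : IsPreconnected (closure G)
  · have hB : IsContinuum (closure G) :=
      ⟨hR.1.of_isClosed_subset isClosed_closure hclR, hGne.closure, hconn⟩
    rcases hind.2 A (closure G) hA hB hun with h | h
    · exact hne h
    · obtain ⟨o, hoO, hoR⟩ := hOR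
      have : o ∈ closure G := by rw [h]; exact hoR
      obtain ⟨g, hgO, hgR, hgA⟩ := mem_closure_iff.1 this O hO hoO
      exact hgA (hOA ⟨hgO, hgR⟩)
  · rw [isPreconnected_iff_subset_of_fully_disjoint_closed isClosed_closure] at hconn
    push Not at hconn
    obtain ⟨u, v, hu, hv, huv, hdis, hnu, hnv⟩ := hconn
    set F1 := closure G ∩ u
    set F2 := closure G ∩ v
    have hF : F1 ∪ F2 = closure G := by
      rw [← inter_union_distrib_left]
      exact inter_eq_left.2 huv
    have hF1 : IsClosed F1 := isClosed_closure.inter hu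
    have hF2 : IsClosed F2 := isClosed_closure.inter hv
    have hd : Disjoint F1 F2 := hdis.mono inter_subset_right inter_subset_right
    have hu1 : A ∪ (F1 ∪ F2) = R := by rw [hF, hun]
    have hu2 : A ∪ (F2 ∪ F1) = R := by rw [union_comm F2 F1, hu1]
    have c1 : IsContinuum (A ∪ F1) :=
      ⟨hR.1.of_isClosed_subset (hAc.union hF1) (by rw [← hu1]; intro z hz; rcases hz with h | h; exacts [Or.inl h, Or.inr (Or.inl h)]),
        union_connected hR.2 hA.2 hAc hF1 hF2 hd hu1⟩
    have c2 : IsContinuum (A ∪ F2) :=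
      ⟨hR.1.of_isClosed_subset (hAc.union hF2) (by rw [← hu2]; intro z hz; rcases hz with h | h; exacts [Or.inl h, Or.inr (Or.inl h)]),
        union_connected hR.2 hA.2 hAc hF2 hF1 hd.symm hu2⟩
    have hcov : (A ∪ F1) ∪ (A ∪ F2) = R := by
      rw [← hu1]; ext z; simp only [mem_union]; tauto
    have g1 : ∃ g ∈ G, g ∉ F1 := by
      by_contra h
      push Not at h
      apply hnu
      have : closure G ⊆ F1 := closure_minimal h hF1
      exact this.trans inter_subset_right
    have g2 : ∃ g ∈ G, g ∉ F2 := by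
      by_contra h
      push Not at h
      apply hnv
      have : closure G ⊆ F2 := closure_minimal h hF2
      exact this.trans inter_subset_right
    rcases hind.2 _ _ c1 c2 hcov with h | h
    · obtain ⟨g, hg, hg1⟩ := g1
      have : g ∈ A ∪ F1 := by rw [h]; exact hg.1
      rcases this with h' | h'
      · exact hg.2 h'
      · exact hg1 h'
    · obtain ⟨g, hg, hg1⟩ := g2
      have : g ∈ A ∪ F2 := by rw [h]; exact hg.1
      rcases this with h' | h'
      · exact hg.2 h'
      · exact hg1 h'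

end general

section general2

lemma comp_subset {X : Type u} [TopologicalSpace X] {K D : Set X} (hDK : D ⊆ K)
    (h1 : IsClosed D) (h2 : IsClosed (K \ D)) {y : X} (hy : y ∈ D) :
    connectedComponentIn K y ⊆ D := by
  intro c hc
  by_contra hcD
  have hpre : IsPreconnected (connectedComponentIn K y) := isPreconnected_connectedComponentIn
  rw [isPreconnected_closed_iff] at hpre
  obtain ⟨w, _, hw1, hw2⟩ := hpre D (K \ D) h1 h2 (fun z hz => by
      by_cases h : z ∈ D
      · exact Or.inl h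
      · exact Or.inr ⟨connectedComponentIn_subset K y hz, h⟩)
    ⟨y, mem_connectedComponentIn (hDK hy), hy⟩
    ⟨c, hc, connectedComponentIn_subset K y hc, hcD⟩
  exact hw2.2 hw1

lemma comp_isClosed {X : Type u} [TopologicalSpace X] {K : Set X}
    (hK : IsClosed K) (y : X) : IsClosed (connectedComponentIn K y) := by
  by_cases hy : y ∈ K
  · have h1 : closure (connectedComponentIn K y) ⊆ K :=
      closure_minimal (connectedComponentIn_subset K y) hK
    have h2 : IsPreconnected (closure (connectedComponentIn K y)) :=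
      isPreconnected_connectedComponentIn.closure
    have h3 : closure (connectedComponentIn K y) ⊆ connectedComponentIn K y :=
      h2.subset_connectedComponentIn (subset_closure (mem_connectedComponentIn hy)) h1
    exact closure_eq_iff_isClosed.1 (h3.antisymm subset_closure)
  · rw [connectedComponentIn_eq_empty hy]
    exact isClosed_empty

/-- upper semicontinuity of components -/
lemma comp_usc {X : Type u} [MetricSpace X] {W : Set X} (hW : IsCompact W) (x : X)
    {ε : ℝ} (hε : 0 < ε) :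
    ∀ᶠ y in 𝓝 x, y ∈ W →
      connectedComponentIn W y ⊆ thickening ε (connectedComponentIn W x) := by
  by_cases hx : x ∈ W
  · obtain ⟨D, hDK, hxD, hD1, hD2, hDO⟩ :=
      exists_relclopen hW hx (O := thickening ε (connectedComponentIn W x)) isOpen_thickening
        (self_subset_thickening hε _)
    have : ∀ᶠ y in 𝓝 x, y ∈ (W \ D)ᶜ := hD2.isOpen_compl.mem_nhds (fun h => h.2 hxD)
    filter_upwards [this] with y hy hyW
    have hyD : y ∈ D := by
      by_contra h
      exact hy ⟨hyW, h⟩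
    exact (comp_subset hDK hD1 hD2 hyD).trans hDO
  · have : ∀ᶠ y in 𝓝 x, y ∈ Wᶜ := hW.isClosed.isOpen_compl.mem_nhds hx
    filter_upwards [this] with y hy hyW
    exact absurd hyW hy

lemma low_of_low {X : Type u} [TopologicalSpace X] {C : Set X} (hC : IsPreconnected C)
    {F : X → ℝ} (hF : ContinuousOn F C) {a b : ℝ} (hab : a ≤ b)
    (hno : ∀ c ∈ C, ¬ (a ≤ F c ∧ F c ≤ b)) {y : X} (hy : y ∈ C) (hlow : F y < a) :
    ∀ c ∈ C, F c < a := by
  intro c hc
  by_contra h
  push Not at h
  obtain ⟨w, hw, hwa⟩ := hC.intermediate_value hy hc hF ⟨hlow.le, h⟩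
  exact hno w hw ⟨hwa.ge, hwa.le.trans hab⟩

lemma high_of_high {X : Type u} [TopologicalSpace X] {C : Set X} (hC : IsPreconnected C)
    {F : X → ℝ} (hF : ContinuousOn F C) {a b : ℝ} (hab : a ≤ b)
    (hno : ∀ c ∈ C, ¬ (a ≤ F c ∧ F c ≤ b)) {y : X} (hy : y ∈ C) (hhigh : b < F y) :
    ∀ c ∈ C, b < F c := by
  intro c hc
  by_contra h
  push Not at h
  obtain ⟨w, hw, hwa⟩ := hC.intermediate_value hc hy hF ⟨h, hhigh.le⟩
  exact hno w hw ⟨hab.trans hwa.ge, hwa.le⟩

open TopologicalSpace in
lemma limit_meets {X : Type u} [MetricSpace X] [CompactSpace X] {K : ℕ → NonemptyCompacts X}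
    {L : NonemptyCompacts X} (hK : Tendsto K atTop (𝓝 L)) {Q : Set X} (hQ : IsClosed Q)
    (hfreq : ∃ᶠ n : ℕ in atTop, (Q ∩ thickening (1 / ((n : ℝ) + 1)) (K n : Set X)).Nonempty) :
    (Q ∩ (L : Set X)).Nonempty := by
  by_contra hcon
  rw [not_nonempty_iff_eq_empty] at hcon
  have hdis : Disjoint Q (L : Set X) := Set.disjoint_iff_inter_eq_empty.2 hcon
  obtain ⟨δ, hδ, hdis2⟩ := hdis.exists_thickenings hQ.isCompact L.isCompact.isClosed
  have h1 : ∀ᶠ n in atTop, dist (K n) L < δ / 2 := by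
    have := (tendsto_iff_dist_tendsto_zero.1 hK)
    exact this.eventually (gt_mem_nhds (half_pos hδ))
  have h2 : ∀ᶠ n : ℕ in atTop, 1 / ((n : ℝ) + 1) < δ / 2 :=
    tendsto_one_div_add_atTop_nhds_zero_nat.eventually (gt_mem_nhds (half_pos hδ))
  obtain ⟨n, ⟨v, hvQ, hvK⟩, hn1, hn2⟩ := (hfreq.and_eventually (h1.and h2)).exists
  obtain ⟨w, hwK, hvw⟩ := mem_thickening_iff.1 hvK
  have hfin : hausdorffEDist (K n : Set X) (L : Set X) ≠ ⊤ := by
    exact hausdorffEDist_ne_top_of_nonempty_of_bounded (K n).nonempty L.nonempty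
      (K n).isCompact.isBounded L.isCompact.isBounded
  obtain ⟨l, hl, hwl⟩ := exists_dist_lt_of_hausdorffDist_lt hwK hn1 hfin
  refine Set.disjoint_left.1 hdis2 (self_subset_thickening hδ _ hvQ) ?_
  rw [mem_thickening_iff]
  exact ⟨l, hl, by linarith [dist_triangle v w l]⟩

open TopologicalSpace in
lemma meets_open {X : Type u} [MetricSpace X] [CompactSpace X] {K : ℕ → NonemptyCompacts X}
    {L : NonemptyCompacts X} (hK : Tendsto K atTop (𝓝 L)) {V : Set X} {u : X} (hV : V ∈ 𝓝 u)
    (hu : u ∈ L) : ∀ᶠ n in atTop, (V ∩ (K n : Set X)).Nonempty := by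
  obtain ⟨ε, hε, hb⟩ := Metric.mem_nhds_iff.1 hV
  have h1 : ∀ᶠ n in atTop, dist (K n) L < ε := by
    have := (tendsto_iff_dist_tendsto_zero.1 hK)
    exact this.eventually (gt_mem_nhds hε)
  filter_upwards [h1] with n hn
  have hfin : hausdorffEDist (K n : Set X) (L : Set X) ≠ ⊤ := by
    exact hausdorffEDist_ne_top_of_nonempty_of_bounded (K n).nonempty L.nonempty
      (K n).isCompact.isBounded L.isCompact.isBounded
  obtain ⟨w, hw, hwl⟩ := exists_dist_lt_of_hausdorffDist_lt' hu hn hfin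
  exact ⟨w, hb (by rw [mem_ball]; exact hwl), hw⟩

end general2

section stonecech

lemma ext_fun {Y : Type u} [TopologicalSpace Y] [NormalSpace Y] {s t : Set Y} (hs : IsClosed s)
    (ht : IsClosed t) (hst : Disjoint s t) :
    ∃ G : StoneCech Y → ℝ, Continuous G ∧ (∀ y ∈ s, G (stoneCechUnit y) = 0) ∧
      (∀ y ∈ t, G (stoneCechUnit y) = 1) := by
  obtain ⟨f, hf0, hf1, hf⟩ := exists_continuous_zero_one_of_isClosed hs ht hst
  let g : Y → Icc (0 : ℝ) 1 := fun y => ⟨f y, hf y⟩
  have hg : Continuous g := f.continuous.subtype_mk _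
  refine ⟨fun z => ((stoneCechExtend hg z : Icc (0 : ℝ) 1) : ℝ),
    continuous_subtype_val.comp (continuous_stoneCechExtend hg), ?_, ?_⟩
  · intro y hy
    have : stoneCechExtend hg (stoneCechUnit y) = g y := by
      exact congrFun (stoneCechExtend_extends hg) y
    show ((stoneCechExtend hg (stoneCechUnit y) : Icc (0 : ℝ) 1) : ℝ) = 0
    rw [this]
    exact hf0 hy
  · intro y hy
    have : stoneCechExtend hg (stoneCechUnit y) = g y := by
      exact congrFun (stoneCechExtend_extends hg) y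
    show ((stoneCechExtend hg (stoneCechUnit y) : Icc (0 : ℝ) 1) : ℝ) = 1
    rw [this]
    exact hf1 hy

variable {X : Type u} [MetricSpace X] [CompactSpace X]

lemma near_point {p : X} {z : StoneCech {x : X // x ≠ p}} (hz : z ∈ remainder {x : X // x ≠ p})
    {O : Set (StoneCech {x : X // x ≠ p})} (hO : IsOpen O) (hzO : z ∈ O) {ε : ℝ} (hε : 0 < ε) :
    ∃ y : {x : X // x ≠ p}, dist y.1 p < ε ∧ stoneCechUnit y ∈ O := by
  let K : Set {x : X // x ≠ p} := {y | ε ≤ dist y.1 p}
  have hK : IsCompact K := by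
    rw [Topology.IsEmbedding.subtypeVal.isCompact_iff]
    have : Subtype.val '' K = {x : X | ε ≤ dist x p} := by
      ext x
      constructor
      · rintro ⟨y, hy, rfl⟩
        exact hy
      · intro hx
        refine ⟨⟨x, ?_⟩, hx, rfl⟩
        rintro rfl
        have : ε ≤ dist x x := hx
        rw [dist_self] at this
        linarith
    rw [this]
    exact (isClosed_le continuous_const (continuous_id.dist continuous_const)).isCompact
  have hcl : IsClosed (stoneCechUnit '' K) := (hK.image continuous_stoneCechUnit).isClosed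
  have hzK : z ∉ stoneCechUnit '' K := by
    rintro ⟨y, _, rfl⟩
    exact hz ⟨y, rfl⟩
  obtain ⟨y, hy⟩ := (denseRange_stoneCechUnit (α := {x : X // x ≠ p})).exists_mem_open
    (hO.inter hcl.isOpen_compl) ⟨z, hzO, hzK⟩
  refine ⟨y, ?_, hy.1⟩
  by_contra h
  exact hy.2 ⟨y, not_lt.1 h, rfl⟩

lemma cluster_point {p : X} {y : ℕ → {x : X // x ≠ p}}
    (hy : Tendsto (fun n => (y n).1) atTop (𝓝 p)) :
    ∃ z ∈ remainder {x : X // x ≠ p}, MapClusterPt z atTop (fun n => stoneCechUnit (y n)) := by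
  obtain ⟨z, hz⟩ := exists_clusterPt_of_compactSpace
    (Filter.map (fun n => (stoneCechUnit (y n) : StoneCech {x : X // x ≠ p})) atTop)
  refine ⟨z, ?_, hz⟩
  rintro ⟨a, rfl⟩
  have hc : Continuous (Subtype.val : {x : X // x ≠ p} → X) := continuous_subtype_val
  have h1 : MapClusterPt (stoneCechExtend hc (stoneCechUnit a)) atTop
      (stoneCechExtend hc ∘ (fun n => (stoneCechUnit (y n) : StoneCech {x : X // x ≠ p}))) := 
    MapClusterPt.continuousAt_comp (continuous_stoneCechExtend hc).continuousAt hz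
  have h2 : stoneCechExtend hc (stoneCechUnit a) = a.1 := congrFun (stoneCechExtend_extends hc) a
  have h3 : (stoneCechExtend hc ∘ (fun n => (stoneCechUnit (y n) : StoneCech {x : X // x ≠ p})))
      = fun n => (y n).1 := by
    funext n
    exact congrFun (stoneCechExtend_extends hc) (y n)
  rw [h2, h3] at h1
  have h4 : ClusterPt a.1 (𝓝 p) := ClusterPt.mono h1 hy
  have h5 : a.1 = p := eq_of_nhds_neBot (by simpa [ClusterPt] using h4)
  exact a.2 h5

end stonecech

section construction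

variable {X : Type u} [MetricSpace X] [CompactSpace X]

lemma exists_step {p : X} {r : ℝ} (hr : 0 < r)
    (hnot : connectedComponentIn (closedBall p r) p ∉ 𝓝 p) (ε : ℝ) (hε : 0 < ε) :
    ∃ (x : X) (D : Set X) (δ : ℝ), 0 < δ ∧ x ∈ ball p ε ∧ x ∈ D ∧ D ⊆ closedBall p r ∧ IsClosed D ∧
      IsClosed (closedBall p r \ D) ∧ Disjoint (ball p δ) D := by
  have h1 : ¬ ball p (min ε r) ⊆ connectedComponentIn (closedBall p r) p := fun h =>
    hnot (Filter.mem_of_superset (ball_mem_nhds p (lt_min hε hr)) h)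
  obtain ⟨x, hx, hxC⟩ := Set.not_subset.1 h1
  have hp : p ∈ closedBall p r := mem_closedBall_self hr.le
  obtain ⟨D, hDK, hpD, hD1, hD2, hDO⟩ :=
    exists_relclopen isClosed_closedBall.isCompact hp (O := {x}ᶜ) isOpen_compl_singleton
      (by rintro c hc rfl; exact hxC hc)
  have hxK : x ∈ closedBall p r := ball_subset_closedBall (ball_subset_ball (min_le_right _ _) hx)
  have hpn : (closedBall p r \ D)ᶜ ∈ 𝓝 p := hD2.isOpen_compl.mem_nhds (fun h => h.2 hpD)
  obtain ⟨δ, hδ, hb⟩ := Metric.mem_nhds_iff.1 hpn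
  refine ⟨x, closedBall p r \ D, δ, hδ, ball_subset_ball (min_le_left _ _) hx,
    ⟨hxK, fun h => hDO h rfl⟩, sdiff_subset, hD2, ?_, ?_⟩
  · have : closedBall p r \ (closedBall p r \ D) = D := by
      rw [sdiff_sdiff_right_self]
      exact inter_eq_right.2 hDK
    rw [this]; exact hD1
  · rw [Set.disjoint_left]
    intro a ha haD
    exact hb ha haD

lemma exists_sequence {p : X} {r : ℝ} (hr : 0 < r)
    (hnot : connectedComponentIn (closedBall p r) p ∉ 𝓝 p) :
    ∃ (x : ℕ → X) (E : ℕ → Set X), Tendsto x atTop (𝓝 p) ∧ (∀ n, x n ∈ ball p r) ∧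
      (∀ n, x n ∈ E n) ∧ (∀ n, p ∉ E n) ∧ (∀ n, E n ⊆ closedBall p r) ∧ (∀ n, IsClosed (E n)) ∧
      (∀ n, IsClosed (closedBall p r \ E n)) ∧ (∀ m n, m ≠ n → Disjoint (E m) (E n)) := by
  have : Nonempty X := ⟨p⟩
  choose! fx fD fδ hδ hx hxD hDK hD1 hD2 hdis using exists_step hr hnot
  let e : ℕ → ℝ := fun n => Nat.rec r (fun n en => min (fδ en) (r / ((n : ℝ) + 2))) n
  have he0 : e 0 = r := rfl
  have hes : ∀ n, e (n + 1) = min (fδ (e n)) (r / ((n : ℝ) + 2)) := fun n => rfl
  have hpos : ∀ n, 0 < e n := by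
    intro n
    induction n with
    | zero => rw [he0]; exact hr
    | succ n ih => rw [hes]; exact lt_min (hδ _ ih) (by positivity)
  have hfδ : ∀ ε, 0 < ε → fδ ε ≤ ε := by
    intro ε hε
    by_contra h
    push Not at h
    have h1 : fx ε ∈ ball p (fδ ε) := ball_subset_ball h.le (hx ε hε)
    exact Set.disjoint_left.1 (hdis ε hε) h1 (hxD ε hε)
  have hle : ∀ n, e (n + 1) ≤ e n := by
    intro n
    rw [hes]
    exact (min_le_left _ _).trans (hfδ _ (hpos n))
  have hanti : Antitone e := antitone_nat_of_succ_le hle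
  have her : ∀ n, e n ≤ r / ((n : ℝ) + 1) := by
    intro n
    cases n with
    | zero => rw [he0]; simp
    | succ n =>
      rw [hes]
      refine (min_le_right _ _).trans ?_
      push_cast
      rw [show (n : ℝ) + 1 + 1 = n + 2 by ring]
  let x : ℕ → X := fun n => fx (e n)
  let D : ℕ → Set X := fun n => fD (e n)
  have hxm : ∀ m n, n < m → x m ∉ D n := by
    intro m n hmn h
    have h1 : x m ∈ ball p (fδ (e n)) := by
      refine ball_subset_ball ?_ (hx (e m) (hpos m))
      have h2 : e m ≤ e (n + 1) := hanti hmn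
      rw [hes] at h2
      exact h2.trans (min_le_left _ _)
    exact Set.disjoint_left.1 (hdis (e n) (hpos n)) h1 h
  have hpD : ∀ n, p ∉ D n := fun n h =>
    Set.disjoint_left.1 (hdis (e n) (hpos n)) (mem_ball_self (hδ _ (hpos n))) h
  have hfinU : ∀ n, IsClosed (⋃ m ∈ Finset.range n, D m) := fun n =>
    (Finset.range n).finite_toSet.isClosed_biUnion (fun m _ => hD1 (e m) (hpos m))
  have hfinI : ∀ n, IsClosed (closedBall p r \ (⋃ m ∈ Finset.range n, D m)) := by
    intro n
    have : closedBall p r \ (⋃ m ∈ Finset.range n, D m)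
        = closedBall p r ∩ ⋂ m ∈ Finset.range n, (closedBall p r \ D m) := by
      ext z
      simp only [Set.mem_sdiff, mem_iUnion, mem_inter_iff, mem_iInter, not_exists, exists_prop, not_and]
      constructor
      · rintro ⟨h1, h2⟩
        exact ⟨h1, fun i hi => ⟨h1, h2 i hi⟩⟩
      · rintro ⟨h1, h2⟩
        exact ⟨h1, fun i hi => (h2 i hi).2⟩
    rw [this]
    exact isClosed_closedBall.inter (isClosed_biInter (fun m _ => hD2 (e m) (hpos m)))
  let E : ℕ → Set X := fun n => D n ∩ (closedBall p r \ (⋃ m ∈ Finset.range n, D m))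
  refine ⟨x, E, ?_, ?_, ?_, ?_, ?_, ?_, ?_, ?_⟩
  · rw [tendsto_iff_dist_tendsto_zero]
    refine squeeze_zero (fun n => dist_nonneg) (fun n => ?_)
      (g := fun n : ℕ => r * (1 / ((n : ℝ) + 1))) ?_
    · have h1 : dist (x n) p < e n := mem_ball.1 (hx (e n) (hpos n))
      refine h1.le.trans ((her n).trans (le_of_eq ?_))
      ring
    · have := (tendsto_one_div_add_atTop_nhds_zero_nat (𝕜 := ℝ)).const_mul r
      simpa using this
  · intro n
    refine ball_subset_ball ?_ (hx (e n) (hpos n))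
    rw [← he0]
    exact hanti (Nat.zero_le n)
  · intro n
    refine ⟨hxD (e n) (hpos n), hDK (e n) (hpos n) (hxD (e n) (hpos n)), ?_⟩
    simp only [mem_iUnion, exists_prop, not_exists, not_and, Finset.mem_range]
    intro m hm
    exact hxm n m hm
  · intro n h
    exact hpD n h.1
  · intro n
    exact inter_subset_left.trans (hDK (e n) (hpos n))
  · intro n
    exact (hD1 (e n) (hpos n)).inter (hfinI n)
  · intro n
    have : closedBall p r \ E n = (closedBall p r \ D n) ∪ (⋃ m ∈ Finset.range n, D m) := by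
      ext z
      constructor
      · rintro ⟨h1, h2⟩
        by_cases h3 : z ∈ D n
        · right
          by_contra h4
          exact h2 ⟨h3, h1, h4⟩
        · exact Or.inl ⟨h1, h3⟩
      · rintro (⟨h1, h2⟩ | h)
        · exact ⟨h1, fun h => h2 h.1⟩
        · refine ⟨?_, fun h' => h'.2.2 h⟩
          simp only [mem_iUnion, exists_prop] at h
          obtain ⟨m, _, hm⟩ := h
          exact hDK (e m) (hpos m) hm
    rw [this]
    exact (hD2 (e n) (hpos n)).union (hfinU n)
  · have key : ∀ m n, m < n → Disjoint (E m) (E n) := by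
      intro m n hmn
      rw [Set.disjoint_left]
      rintro a ⟨ha, _⟩ ⟨_, _, ha2⟩
      apply ha2
      simp only [mem_iUnion, exists_prop, Finset.mem_range]
      exact ⟨m, hmn, ha⟩
    intro m n hmn
    rcases lt_or_gt_of_ne hmn with h | h
    · exact key m n h
    · exact (key n m h).symm

end construction

section main

open TopologicalSpace

variable {X : Type u} [MetricSpace X] [CompactSpace X]

/-- The closed ball about `p` of radius `r / (k + 1)`. -/
def nb (p : X) (r : ℝ) (k : ℕ) : Set X := closedBall p (r / ((k : ℝ) + 1))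

/-- The component of `x` in `nb p r k` together with `p`, as a point of the hyperspace. -/
def hyp (p : X) (r : ℝ) (k : ℕ) (x : X) : NonemptyCompacts X :=
  ⟨⟨connectedComponentIn (nb p r k) x ∪ {p},
    ((comp_isClosed isClosed_closedBall x).union isClosed_singleton).isCompact⟩,
    ⟨p, Or.inr rfl⟩⟩

lemma hyp_coe (p : X) (r : ℝ) (k : ℕ) (x : X) :
    (hyp p r k x : Set X) = connectedComponentIn (nb p r k) x ∪ {p} := rfl

omit [CompactSpace X] in
lemma nb_subset {p : X} {r : ℝ} (hr : 0 < r) (k : ℕ) : nb p r k ⊆ closedBall p r := by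
  apply closedBall_subset_closedBall
  apply div_le_self hr.le
  have : (0 : ℝ) ≤ k := k.cast_nonneg
  linarith

lemma key [ConnectedSpace X] {p : X} {r : ℝ} (hr : 0 < r) (hbig : ∃ y, r < dist y p)
    {s : ℕ → X} {E : ℕ → Set X} (hs : Tendsto s atTop (𝓝 p)) (hsE : ∀ n, s n ∈ E n)
    (hpE : ∀ n, p ∉ E n) (hE0 : ∀ n, E n ⊆ closedBall p r) (hE1 : ∀ n, IsClosed (E n))
    (hE2 : ∀ n, IsClosed (closedBall p r \ E n)) {k : ℕ} {L : NonemptyCompacts X}
    (hL : Tendsto (fun n => hyp p r k (s n)) atTop (𝓝 L)) {F : X → ℝ}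
    (hF : ContinuousOn F {p}ᶜ)
    (hno : ∀ n, ∀ y ∈ nb p r k, y ∈ E n → ¬ (1 / 3 ≤ F y ∧ F y ≤ 2 / 3))
    (hlow : ∃ᶠ n in atTop, F (s n) < 1 / 3)
    (hhigh : ∃ᶠ y in 𝓝 p, 2 / 3 < F y ∧ ∃ n : ℕ, y ∈ E n ∧ dist (s n) p / 2 < dist y p ∧
      ∀ j ≤ n, y ∈ nb p r j → connectedComponentIn (nb p r j) y ⊆
        thickening (1 / ((n : ℝ) + 1)) (connectedComponentIn (nb p r j) (s n))) : False := by
  set rk : ℝ := r / ((k : ℝ) + 1) with hrk
  have hk1 : (0 : ℝ) < (k : ℝ) + 1 := by positivity
  have hrk0 : 0 < rk := div_pos hr hk1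
  have hrkr : rk ≤ r := by
    apply div_le_self hr.le
    have : (0 : ℝ) ≤ k := k.cast_nonneg
    linarith
  have hbigk : ∃ y, rk < dist y p := by
    obtain ⟨y, hy⟩ := hbig
    exact ⟨y, hrkr.trans_lt hy⟩
  have hWn : nb p r k ∈ 𝓝 p := closedBall_mem_nhds p hrk0
  have hcomp : ∀ n, ∀ y ∈ nb p r k, y ∈ E n →
      connectedComponentIn (nb p r k) y ⊆ E n := by
    intro n y hy hyE
    exact (connectedComponentIn_mono y (nb_subset hr k)).trans
      (comp_subset (hE0 n) (hE1 n) (hE2 n) hyE)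
  have hcompF : ∀ n, ∀ y ∈ nb p r k, y ∈ E n →
      ContinuousOn F (connectedComponentIn (nb p r k) y) := by
    intro n y hy hyE
    refine hF.mono fun c hc => ?_
    rintro rfl
    exact hpE n (hcomp n y hy hyE hc)
  have hcompno : ∀ n, ∀ y ∈ nb p r k, y ∈ E n →
      ∀ c ∈ connectedComponentIn (nb p r k) y, ¬ (1 / 3 ≤ F c ∧ F c ≤ 2 / 3) := by
    intro n y hy hyE c hc
    exact hno n c (connectedComponentIn_subset _ _ hc) (hcomp n y hy hyE hc)
  have hbump : ∀ y ∈ nb p r k, ∃ u ∈ connectedComponentIn (nb p r k) y, dist u p = rk :=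
    fun y hy => boundary_bumping hbigk hy
  have hsph : IsClosed (sphere p rk) := isClosed_sphere
  have hsphF : ContinuousOn F (sphere p rk) := by
    refine hF.mono fun c hc => ?_
    rintro rfl
    rw [mem_sphere, dist_self] at hc
    linarith
  have hQ1 : IsClosed (sphere p rk ∩ F ⁻¹' (Iic (1 / 3))) :=
    hsphF.preimage_isClosed_of_isClosed hsph isClosed_Iic
  have hQ2 : IsClosed (sphere p rk ∩ F ⁻¹' (Ici (2 / 3))) :=
    hsphF.preimage_isClosed_of_isClosed hsph isClosed_Ici
  have hevW : ∀ᶠ n in atTop, s n ∈ nb p r k := hs.eventually hWn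
  obtain ⟨u1, ⟨hu1s, hu1F⟩, hu1L⟩ := limit_meets hL hQ1 (by
    refine (hlow.and_eventually hevW).mono ?_
    rintro n ⟨hn1, hn2⟩
    obtain ⟨u, hu, hud⟩ := hbump (s n) hn2
    refine ⟨u, ⟨mem_sphere.2 hud, ?_⟩, ?_⟩
    · exact (low_of_low isPreconnected_connectedComponentIn (hcompF n _ hn2 (hsE n))
        (by norm_num) (hcompno n _ hn2 (hsE n)) (mem_connectedComponentIn hn2) hn1 u hu).le
    · apply self_subset_thickening (by positivity)
      rw [hyp_coe]
      exact Or.inl hu)
  obtain ⟨u2, ⟨hu2s, hu2F⟩, hu2L⟩ := limit_meets hL hQ2 (by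
    rw [frequently_atTop]
    intro N
    have hev : ∀ᶠ y in 𝓝 p, ∀ j ∈ Finset.range (max N k), dist y p < dist (s j) p / 2 := by
      rw [Finset.eventually_all]
      intro j _
      have hj : 0 < dist (s j) p / 2 := by
        have : s j ≠ p := fun h => hpE j (h ▸ hsE j)
        have := dist_pos.2 this
        linarith
      exact Metric.ball_mem_nhds p hj
    obtain ⟨y, ⟨hyF, n, hyE, hyd, hyC⟩, hy2, hyW⟩ :=
      (hhigh.and_eventually (hev.and hWn)).exists
    have hn : max N k ≤ n := by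
      by_contra h
      push Not at h
      have := hy2 n (Finset.mem_range.2 h)
      linarith
    refine ⟨n, (le_max_left _ _).trans hn, ?_⟩
    obtain ⟨u, hu, hud⟩ := hbump y hyW
    refine ⟨u, ⟨mem_sphere.2 hud, ?_⟩, ?_⟩
    · exact (high_of_high isPreconnected_connectedComponentIn (hcompF n _ hyW hyE)
        (by norm_num) (hcompno n _ hyW hyE) (mem_connectedComponentIn hyW) hyF u hu).le
    · have h1 := hyC k ((le_max_right _ _).trans hn) hyW hu
      refine thickening_subset_of_subset _ ?_ h1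
      rw [hyp_coe]
      exact subset_union_left)
  have hne1 : u1 ≠ p := by
    rintro rfl
    rw [mem_sphere, dist_self] at hu1s
    linarith
  have hne2 : u2 ≠ p := by
    rintro rfl
    rw [mem_sphere, dist_self] at hu2s
    linarith
  have hc1 : ContinuousAt F u1 := hF.continuousAt (isOpen_compl_singleton.mem_nhds hne1)
  have hc2 : ContinuousAt F u2 := hF.continuousAt (isOpen_compl_singleton.mem_nhds hne2)
  have hV1 : {p}ᶜ ∩ F ⁻¹' (Iio (1 / 2)) ∈ 𝓝 u1 :=
    Filter.inter_mem (isOpen_compl_singleton.mem_nhds hne1)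
      (hc1 (Iio_mem_nhds (by
        have : F u1 ≤ 1 / 3 := hu1F
        linarith)))
  have hV2 : {p}ᶜ ∩ F ⁻¹' (Ioi (1 / 2)) ∈ 𝓝 u2 :=
    Filter.inter_mem (isOpen_compl_singleton.mem_nhds hne2)
      (hc2 (Ioi_mem_nhds (by
        have : 2 / 3 ≤ F u2 := hu2F
        linarith)))
  obtain ⟨n, ⟨v1, ⟨hv1p, hv1F⟩, hv1⟩, ⟨v2, ⟨hv2p, hv2F⟩, hv2⟩, hnW⟩ :=
    ((meets_open hL hV1 hu1L).and ((meets_open hL hV2 hu2L).and hevW)).exists
  rw [hyp_coe] at hv1 hv2
  have hv1' : v1 ∈ connectedComponentIn (nb p r k) (s n) := by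
    rcases hv1 with h | h
    · exact h
    · exact absurd h hv1p
  have hv2' : v2 ∈ connectedComponentIn (nb p r k) (s n) := by
    rcases hv2 with h | h
    · exact h
    · exact absurd h hv2p
  obtain ⟨w, hw, hwF⟩ := (isPreconnected_connectedComponentIn
    (x := s n) (F := nb p r k)).intermediate_value hv1' hv2' (hcompF n _ hnW (hsE n))
    (show (1 / 2 : ℝ) ∈ Icc (F v1) (F v2) from ⟨le_of_lt hv1F, le_of_lt hv2F⟩)
  exact hcompno n _ hnW (hsE n) w hw ⟨by rw [hwF]; norm_num, by rw [hwF]; norm_num⟩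

lemma cluster_closed {Z : Type u} [TopologicalSpace Z] {z : Z} {u : ℕ → Z}
    (hz : MapClusterPt z atTop u) {C : Set Z} (hC : IsClosed C) (hu : ∀ n, u n ∈ C) : z ∈ C := by
  by_contra h
  have h1 : ∃ᶠ n in atTop, u n ∈ Cᶜ := hz.frequently (hC.isOpen_compl.mem_nhds h)
  obtain ⟨n, hn⟩ := h1.exists
  exact hn (hu n)

omit [CompactSpace X] in
lemma range_closed {p : X} {y : ℕ → {x : X // x ≠ p}}
    (hy : Tendsto (fun n => (y n).1) atTop (𝓝 p)) : IsClosed (range y) := by
  have h1 : IsClosed (insert p (range (fun n => (y n).1))) := hy.isCompact_insert_range.isClosed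
  have h2 : range y = Subtype.val ⁻¹' (insert p (range (fun n => (y n).1))) := by
    ext a
    constructor
    · rintro ⟨n, rfl⟩
      exact Or.inr ⟨n, rfl⟩
    · rintro (h | ⟨n, hn⟩)
      · exact absurd h a.2
      · exact ⟨n, Subtype.ext hn⟩
  rw [h2]
  exact h1.preimage continuous_subtype_val

theorem main_thm [ConnectedSpace X] {p : X} {r : ℝ} (hr : 0 < r) (hbig : ∃ y, r < dist y p)
    (hnot : connectedComponentIn (closedBall p r) p ∉ 𝓝 p) :
    ¬ IsIndecomposable (remainder {x : X // x ≠ p}) := by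
  intro hind
  obtain ⟨x, E, hx, hxb, hxE, hpE, hE0, hE1, hE2, hEd⟩ := exists_sequence hr hnot
  obtain ⟨L, φ, hφ, hL⟩ := CompactSpace.tendsto_subseq
    (fun (n : ℕ) (k : ℕ) => hyp p r k (x (2 * n)))
  have hL' : ∀ k, Tendsto (fun n => hyp p r k (x (2 * φ n))) atTop (𝓝 (L k)) := fun k =>
    (tendsto_pi_nhds.1 hL) k
  have hne : ∀ n, x n ≠ p := fun n h => hpE n (h ▸ hxE n)
  let Y := {x : X // x ≠ p}
  let R : Set (StoneCech Y) := remainder Y
  have hRcl : IsClosed R := hind.1.1.isClosed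
  let s : ℕ → Y := fun n => ⟨x (2 * φ n), hne _⟩
  let t : ℕ → Y := fun n => ⟨x (2 * n + 1), hne _⟩
  have h2φ : Tendsto (fun n => 2 * φ n) atTop atTop := by
    refine tendsto_atTop_mono (fun n => ?_) hφ.tendsto_atTop
    omega
  have h2t : Tendsto (fun n : ℕ => 2 * n + 1) atTop atTop := by
    refine tendsto_atTop_mono (fun n => ?_) tendsto_id
    simp only [id]
    omega
  have hs : Tendsto (fun n => (s n).1) atTop (𝓝 p) := hx.comp h2φ
  have ht : Tendsto (fun n => (t n).1) atTop (𝓝 p) := hx.comp h2t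
  let T : Set Y := {y | ∃ n, y.1 ∈ ball p r ∧ y.1 ∈ E (2 * n + 1)}
  have hballE : ∀ n, IsOpen (ball p r ∩ E n) := by
    intro n
    have : ball p r ∩ E n = ball p r ∩ (closedBall p r \ E n)ᶜ := by
      ext z
      constructor
      · rintro ⟨h1, h2⟩
        exact ⟨h1, fun h => h.2 h2⟩
      · rintro ⟨h1, h2⟩
        refine ⟨h1, ?_⟩
        by_contra h3
        exact h2 ⟨ball_subset_closedBall h1, h3⟩
    rw [this]
    exact isOpen_ball.inter (hE2 n).isOpen_compl
  have hT : IsOpen T := by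
    have : T = ⋃ n, Subtype.val ⁻¹' (ball p r ∩ E (2 * n + 1)) := by
      ext y
      simp only [mem_iUnion, mem_preimage, mem_inter_iff]
      rfl
    rw [this]
    exact isOpen_iUnion fun n => (hballE _).preimage continuous_subtype_val
  let N : Set Y := Tᶜ
  have hN : IsClosed N := hT.isClosed_compl
  have hevenN : ∀ n (y : Y), y.1 ∈ E (2 * n) → y ∈ N := by
    rintro n y hy ⟨m, _, hm⟩
    exact Set.disjoint_left.1 (hEd (2 * n) (2 * m + 1) (by omega)) hy hm
  let F0 : Set (StoneCech Y) := closure (stoneCechUnit '' N) ∩ R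
  have hF0 : IsClosed F0 := isClosed_closure.inter hRcl
  let P : ℕ → X → Prop := fun n y => y ∈ E (2 * φ n) ∧ dist (x (2 * φ n)) p / 2 < dist y p ∧
      ∀ j ≤ n, y ∈ nb p r j → connectedComponentIn (nb p r j) y ⊆
        thickening (1 / ((n : ℝ) + 1)) (connectedComponentIn (nb p r j) (x (2 * φ n)))
  have hP : ∀ n, ∀ᶠ y in 𝓝 (x (2 * φ n)), P n y := by
    intro n
    have e1 : ∀ᶠ y in 𝓝 (x (2 * φ n)), y ∈ E (2 * φ n) :=
      Filter.mem_of_superset ((hballE _).mem_nhds ⟨hxb _, hxE _⟩) inter_subset_right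
    have e2 : ∀ᶠ y in 𝓝 (x (2 * φ n)), dist (x (2 * φ n)) p / 2 < dist y p := by
      have hpos : 0 < dist (x (2 * φ n)) p := dist_pos.2 (hne _)
      have : Continuous fun y : X => dist y p := continuous_id.dist continuous_const
      exact this.continuousAt.eventually (lt_mem_nhds (half_lt_self hpos))
    have e3 : ∀ᶠ y in 𝓝 (x (2 * φ n)), ∀ j ∈ Finset.range (n + 1), y ∈ nb p r j →
        connectedComponentIn (nb p r j) y ⊆
        thickening (1 / ((n : ℝ) + 1)) (connectedComponentIn (nb p r j) (x (2 * φ n))) := by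
      rw [Finset.eventually_all]
      intro j _
      exact comp_usc isClosed_closedBall.isCompact _ (by positivity)
    filter_upwards [e1, e2, e3] with y h1 h2 h3
    exact ⟨h1, h2, fun j hj => h3 j (Finset.mem_range.2 (Nat.lt_succ_of_le hj))⟩
  let S : Set Y := interior {y : Y | ∃ n, P n y.1}
  have hS : IsOpen S := isOpen_interior
  have hsS : ∀ n, s n ∈ S := by
    intro n
    rw [mem_interior_iff_mem_nhds]
    have h1 : ∀ᶠ y in 𝓝 (s n), P n y.1 :=
      (continuous_subtype_val.continuousAt (x := s n)).eventually (hP n)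
    exact Filter.mem_of_superset h1 fun y hy => ⟨n, hy⟩
  have hSN : S ⊆ N := by
    intro y hy
    obtain ⟨n, hn⟩ := interior_subset hy
    exact hevenN _ y hn.1
  obtain ⟨g, hg, hg0, hg1⟩ := ext_fun hS.isClosed_compl (range_closed hs) (by
    rw [Set.disjoint_right]
    rintro _ ⟨n, rfl⟩ h
    exact h (hsS n))
  obtain ⟨h, hh, hh0, hh1⟩ := ext_fun hN (range_closed ht) (by
    rw [Set.disjoint_right]
    rintro _ ⟨n, rfl⟩ h
    exact h ⟨n, hxb _, hxE _⟩)
  obtain ⟨z0, hz0R, hz0⟩ := cluster_point hs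
  obtain ⟨z2, hz2R, hz2⟩ := cluster_point ht
  have hgz0 : g z0 = 1 := by
    have : z0 ∈ g ⁻¹' {1} :=
      cluster_closed hz0 (isClosed_singleton.preimage hg) (fun n => hg1 _ ⟨n, rfl⟩)
    exact this
  have hhz2 : h z2 = 1 := by
    have : z2 ∈ h ⁻¹' {1} :=
      cluster_closed hz2 (isClosed_singleton.preimage hh) (fun n => hh1 _ ⟨n, rfl⟩)
    exact this
  have hz0F : z0 ∈ F0 := by
    refine ⟨?_, hz0R⟩
    exact cluster_closed hz0 isClosed_closure
      (fun n => subset_closure ⟨s n, hSN (hsS n), rfl⟩)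
  have hhF0 : ∀ z ∈ F0, h z = 0 := by
    intro z hz
    have : closure (stoneCechUnit '' N) ⊆ h ⁻¹' {0} := by
      refine closure_minimal ?_ (isClosed_singleton.preimage hh)
      rintro _ ⟨y, hy, rfl⟩
      exact hh0 y hy
    exact this hz.1
  let A : Set (StoneCech Y) := connectedComponentIn F0 z0
  have hAF : A ⊆ F0 := connectedComponentIn_subset _ _
  have hA : IsContinuum A :=
    ⟨(comp_isClosed hF0 z0).isCompact, isConnected_connectedComponentIn_iff.2 hz0F⟩
  have hAR : A ⊆ R := hAF.trans inter_subset_right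
  have hAne : A ≠ R := by
    intro h'
    have : z2 ∈ A := by rw [h']; exact hz2R
    have := hhF0 z2 (hAF this)
    rw [hhz2] at this
    exact one_ne_zero this
  let O : Set (StoneCech Y) := g ⁻¹' (Ioi 0)
  have hO : IsOpen O := isOpen_Ioi.preimage hg
  have hOS : ∀ y : Y, stoneCechUnit y ∈ O → y ∈ S := by
    intro y hy
    by_contra hyS
    have h1 : g (stoneCechUnit y) = 0 := hg0 y hyS
    have h2 : 0 < g (stoneCechUnit y) := hy
    linarith
  have hOR : (O ∩ R).Nonempty := ⟨z0, by show 0 < g z0; rw [hgz0]; exact one_pos, hz0R⟩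
  refine decomposable hind.1 hA hAR hAne hO hOR ?_ hind
  rintro z1 ⟨hz1O, hz1R⟩
  by_contra hz1A
  have hz1F : z1 ∈ F0 := by
    refine ⟨?_, hz1R⟩
    rw [_root_.mem_closure_iff]
    intro O' hO' hz1O'
    obtain ⟨y, _, hyO⟩ := near_point hz1R (hO.inter hO') ⟨hz1O, hz1O'⟩ one_pos
    exact ⟨stoneCechUnit y, hyO.2, y, hSN (hOS y hyO.1), rfl⟩
  obtain ⟨D, hDF, hz0D, hD1, hD2, hDO⟩ := exists_relclopen hF0.isCompact hz0F
    (O := {z1}ᶜ) isOpen_compl_singleton (by rintro c hc rfl; exact hz1A hc)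
  have hz1D : z1 ∈ F0 \ D := ⟨hz1F, fun h' => hDO h' rfl⟩
  obtain ⟨f, hf0, hf1, -⟩ := exists_continuous_zero_one_of_isClosed hD1 hD2
    (Set.disjoint_left.2 fun a ha hb => hb.2 ha)
  classical
  let F : X → ℝ := fun a => if h : a ≠ p then f (stoneCechUnit (⟨a, h⟩ : Y)) else 0
  have hFy : ∀ y : Y, F y.1 = f (stoneCechUnit y) := by
    intro y
    show (if h : y.1 ≠ p then f (stoneCechUnit (⟨y.1, h⟩ : Y)) else 0) = _
    rw [dif_pos y.2]
  have hF : ContinuousOn F {p}ᶜ := by
    rw [continuousOn_iff_continuous_domRestrict]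
    have h1 : ({p}ᶜ : Set X).domRestrict F = fun y : Y => f (stoneCechUnit y) := by
      funext y
      exact hFy y
    rw [h1]
    exact f.continuous.comp continuous_stoneCechUnit
  have hk : ∃ k : ℕ, ∀ y : Y, y.1 ∈ nb p r k → y ∈ N → ¬ (1 / 3 ≤ F y.1 ∧ F y.1 ≤ 2 / 3) := by
    by_contra hcon
    push Not at hcon
    choose y hy1 hy2 hy3 hy4 using hcon
    have hyt : Tendsto (fun k => (y k).1) atTop (𝓝 p) := by
      rw [tendsto_iff_dist_tendsto_zero]
      refine squeeze_zero (fun n => dist_nonneg) (fun n => ?_)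
        (g := fun n : ℕ => r * (1 / ((n : ℝ) + 1))) ?_
      · have h1 : dist (y n).1 p ≤ r / ((n : ℝ) + 1) := mem_closedBall.1 (hy1 n)
        refine h1.trans (le_of_eq ?_)
        ring
      · have := (tendsto_one_div_add_atTop_nhds_zero_nat (𝕜 := ℝ)).const_mul r
        simpa using this
    obtain ⟨z, hzR, hz⟩ := cluster_point hyt
    have hzF : z ∈ F0 := ⟨cluster_closed hz isClosed_closure
      (fun n => subset_closure ⟨y n, hy2 n, rfl⟩), hzR⟩
    have hzf : z ∈ f ⁻¹' (Icc (1 / 3) (2 / 3)) :=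
      cluster_closed hz (isClosed_Icc.preimage f.continuous) (fun n => by
        show f (stoneCechUnit (y n)) ∈ Icc (1 / 3 : ℝ) (2 / 3)
        rw [← hFy]
        exact ⟨hy3 n, hy4 n⟩)
    by_cases hzD : z ∈ D
    · have h1 : f z = 0 := hf0 hzD
      have h2 : 1 / 3 ≤ f z := hzf.1
      rw [h1] at h2
      norm_num at h2
    · have h1 : f z = 1 := hf1 ⟨hzF, hzD⟩
      have h2 : f z ≤ 2 / 3 := hzf.2
      rw [h1] at h2
      norm_num at h2
  obtain ⟨k, hk⟩ := hk
  have hfz0 : f z0 = 0 := hf0 hz0D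
  have hfz1 : f z1 = 1 := hf1 hz1D
  refine key hr hbig (s := fun n => x (2 * φ n)) (E := fun n => E (2 * φ n)) hs
    (fun n => hxE _) (fun n => hpE _) (fun n => hE0 _) (fun n => hE1 _) (fun n => hE2 _)
    (hL' k) hF ?_ ?_ ?_
  · intro n y hy hyE
    have hyp' : y ≠ p := fun h' => hpE (2 * φ n) (h' ▸ hyE)
    exact hk ⟨y, hyp'⟩ hy (hevenN _ ⟨y, hyp'⟩ hyE)
  · have h1 : f ⁻¹' (Iio (1 / 3)) ∈ 𝓝 z0 :=
      (isOpen_Iio.preimage f.continuous).mem_nhds (by
        show f z0 < 1 / 3
        rw [hfz0]; norm_num)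
    refine (hz0.frequently h1).mono fun n hn => ?_
    have h2 : f (stoneCechUnit (s n)) < 1 / 3 := hn
    rw [← hFy] at h2
    exact h2
  · rw [Filter.frequently_iff]
    intro U hU
    obtain ⟨ε, hε, hb⟩ := Metric.mem_nhds_iff.1 hU
    have hfo : IsOpen (f ⁻¹' (Ioi (2 / 3))) := isOpen_Ioi.preimage f.continuous
    obtain ⟨y, hyε, hyO⟩ := near_point hz1R (hO.inter hfo) ⟨hz1O, by
      show 2 / 3 < f z1
      rw [hfz1]; norm_num⟩ hε
    refine ⟨y.1, hb hyε, ?_, ?_⟩
    · rw [hFy]
      exact hyO.2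
    · have h9 : y ∈ {y : Y | ∃ n, P n y.1} := interior_subset (hOS y hyO.1)
      exact h9

/-- Under (H), `X` is connected im kleinen at `p`. -/
theorem result {X : Type u} [MetricSpace X] [CompactSpace X] [ConnectedSpace X] (p : X)
    (h : IsIndecomposable (remainder {x : X // x ≠ p})) : ConnectedImKleinenAt p := by
  by_contra hcon
  unfold ConnectedImKleinenAt at hcon
  push Not at hcon
  obtain ⟨U, hU, hpU, hC⟩ := hcon
  -- there is a point different from `p`
  obtain ⟨z, hz⟩ := h.1.2.nonempty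
  obtain ⟨y, -, -⟩ := near_point hz isOpen_univ (mem_univ z) one_pos
  obtain ⟨ε, hε, hb⟩ := Metric.mem_nhds_iff.1 (hU.mem_nhds hpU)
  have hy0 : 0 < dist y.1 p := dist_pos.2 y.2
  set r : ℝ := min (ε / 2) (dist y.1 p / 2) with hrdef
  have hr : 0 < r := lt_min (half_pos hε) (half_pos hy0)
  refine main_thm hr ⟨y.1, (min_le_right _ _).trans_lt (half_lt_self hy0)⟩ ?_ h
  intro hmem
  have hp : p ∈ closedBall p r := mem_closedBall_self hr.le
  refine hC (connectedComponentIn (closedBall p r) p) ?_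
    (isConnected_connectedComponentIn_iff.2 hp) (mem_interior_iff_mem_nhds.2 hmem)
  refine (connectedComponentIn_subset _ _).trans ((closedBall_subset_ball ?_).trans hb)
  exact (min_le_left _ _).trans_lt (half_lt_self hε)

end main

end Pool.Agent.Results.MP_19acf5_gt.IndecomposableRemainderCIK
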