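import Mathlib
import Pool.Agent.H70.Model

/-!
Negative answer to Q2 of MP_19acf5_gt: a continuum `X` and a point `p` such that the Stone-Cech
remainder of `X - {p}` is an indecomposable continuum, but `X` is not the union of a compact set
missing `p` and a subcontinuum irreducible from some point to `p`.
-/

open Set

namespace Pool.Agent.Results.MP_19acf5_gt.NoIrreducibleDecomposition

universe u

/-- A (sub)continuum: a nonempty compact connected set. -/
def IsContinuum {Z : Type u} [TopologicalSpace Z] (s : Set Z) : Prop :=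
  IsCompact s ∧ IsConnected s

/-- An indecomposable continuum: not the union of two proper subcontinua. -/
def IsIndecomposable {Z : Type u} [TopologicalSpace Z] (s : Set Z) : Prop :=
  IsContinuum s ∧ ∀ A B : Set Z, IsContinuum A → IsContinuum B → A ∪ B = s → A = s ∨ B = s

/-- The Stone-Cech remainder `β(Y) - Y`. -/
def remainder (Y : Type u) [TopologicalSpace Y] : Set (StoneCech Y) :=
  (range (stoneCechUnit : Y → StoneCech Y))ᶜ

/-- `K` is a continuum irreducible from `q` to `p`: it contains both points and no proper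
subcontinuum of `K` contains both. -/
def IsIrreducibleFromTo {X : Type u} [TopologicalSpace X] (K : Set X) (q p : X) : Prop :=
  IsContinuum K ∧ q ∈ K ∧ p ∈ K ∧
    ∀ L : Set X, L ⊆ K → IsContinuum L → q ∈ L → p ∈ L → L = K

/-- Q2 is false. -/
theorem result : ∃ (X : Type) (_ : MetricSpace X) (_ : CompactSpace X) (_ : ConnectedSpace X)
    (p : X), IsIndecomposable (remainder {x : X // x ≠ p}) ∧
      ¬ ∃ (M : Set X) (q : X) (K : Set X), IsCompact M ∧ p ∉ M ∧ IsIrreducibleFromTo K q p ∧
        M ∪ K = univ := by
  obtain ⟨X, m, c, p, ⟨T⟩⟩ := Pool.Agent.H70.exists_tel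
  refine ⟨X, m, c, T.connected, p, T.indecomposable, ?_⟩
  rintro ⟨M, q, K, hM, hpM, ⟨hK, hq, hp, hirr⟩, hcov⟩
  exact T.no_decomposition ⟨M, q, K, hM, hpM, hK, hq, hp, hirr, hcov⟩

end Pool.Agent.Results.MP_19acf5_gt.NoIrreducibleDecomposition
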