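import Mathlib
import Pool.Agent.Results.MP_19acf5_gt.IndecomposableRemainderCIK
import Pool.Agent.Results.MP_19acf5_gt.NoIrreducibleDecomposition

/-!
Both parts of the question MP_19acf5_gt, which are posed together: Q1 is true and Q2 is false.
-/

open Set

namespace Pool.Agent.Results.MP_19acf5_gt.BothPartsAnswered

universe u

/-- A (sub)continuum: a nonempty compact connected set. -/
def IsContinuum {Z : Type u} [TopologicalSpace Z] (s : Set Z) : Prop :=
  IsCompact s ∧ IsConnected s

/-- An indecomposable continuum: not the union of two proper subcontinua. -/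
def IsIndecomposable {Z : Type u} [TopologicalSpace Z] (s : Set Z) : Prop :=
  IsContinuum s ∧ ∀ A B : Set Z, IsContinuum A → IsContinuum B → A ∪ B = s → A = s ∨ B = s

/-- The Stone-Cech remainder `β(Y) - Y`. -/
def remainder (Y : Type u) [TopologicalSpace Y] : Set (StoneCech Y) :=
  (range (stoneCechUnit : Y → StoneCech Y))ᶜ

/-- `X` is connected im kleinen at `p`. -/
def ConnectedImKleinenAt {X : Type u} [TopologicalSpace X] (p : X) : Prop :=
  ∀ U : Set X, IsOpen U → p ∈ U → ∃ C : Set X, C ⊆ U ∧ IsConnected C ∧ p ∈ interior C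

/-- `K` is a continuum irreducible from `q` to `p`: it contains both points and no proper
subcontinuum of `K` contains both. -/
def IsIrreducibleFromTo {X : Type u} [TopologicalSpace X] (K : Set X) (q p : X) : Prop :=
  IsContinuum K ∧ q ∈ K ∧ p ∈ K ∧
    ∀ L : Set X, L ⊆ K → IsContinuum L → q ∈ L → p ∈ L → L = K

/-- Q1 holds and Q2 fails. -/
theorem result :
    (∀ (X : Type u) [MetricSpace X] [CompactSpace X] [ConnectedSpace X] (p : X),
      IsIndecomposable (remainder {x : X // x ≠ p}) → ConnectedImKleinenAt p) ∧
    ∃ (X : Type) (_ : MetricSpace X) (_ : CompactSpace X) (_ : ConnectedSpace X) (p : X),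
      IsIndecomposable (remainder {x : X // x ≠ p}) ∧
      ¬ ∃ (M : Set X) (q : X) (K : Set X), IsCompact M ∧ p ∉ M ∧ IsIrreducibleFromTo K q p ∧
        M ∪ K = univ :=
  ⟨fun _ _ _ _ p h => IndecomposableRemainderCIK.result p h, NoIrreducibleDecomposition.result⟩

end Pool.Agent.Results.MP_19acf5_gt.BothPartsAnswered
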